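import Pool.Agent.H.MP_e8d659_an.D

namespace Pool.Agent.Results.MP_e8d659_an.No
open Polynomial MeasureTheory Real Filter Topology

def OPS (w : ℝ → ℝ) (p : ℕ → ℝ[X]) (a b : ℕ → ℝ) : Prop :=
  (∀ n : ℕ, (p n).degree = n ∧ 0 < (p n).leadingCoeff) ∧
  (∀ m n, ∫ x, (p m).eval x * (p n).eval x * w x = if m = n then 1 else 0) ∧
  (∀ n, 0 < a (n + 1)) ∧
  X * p 0 = C (a 1) * p 1 + C (b 0) * p 0 ∧
  ∀ n, X * p (n + 1) = C (a (n + 2)) * p (n + 2) + C (b (n + 1)) * p (n + 1) + C (a (n + 1)) * p n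

open Pool.Agent.H.MP_e8d659_an in
theorem result : ∃ Q : ℝ → ℝ, Measurable Q ∧
    (∀ k : ℕ, Integrable fun x => x ^ k * exp (-2 * Q x)) ∧
    Tendsto (fun x => Q x / (1 / 4 * x ^ 2)) atTop (𝓝 1) ∧
    Tendsto (fun x => Q x / (1 / 4 * |x| ^ 2)) atBot (𝓝 1) ∧
    (∃ p a b, OPS (fun x => exp (-2 * Q x)) p a b) ∧
    ∀ p a b, OPS (fun x => exp (-2 * Q x)) p a b → ∀ L : ℝ → ℝ, Tendsto L atTop (𝓝 1) →
      ¬ ∃ l, Tendsto (fun n : ℕ => a n / (√n * L √n)) atTop (𝓝 l) := by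
  obtain ⟨f, hf, hb, hk⟩ := exf
  have f0 : ∀ x, 0 < f x := fun x => by linarith [(hb x).1]
  have e : ∀ x, exp (-2 * (x ^ 2 / 4 - log (f x) / 2)) = f x * g x := fun x => by
    rw [g, ← exp_log (f0 x), ← exp_add, log_exp]; congr 1; ring
  have o : ∀ p a b, OPS (fun x => exp (-2 * (x ^ 2 / 4 - log (f x) / 2))) p a b ↔
      OP (J hf hb) p a b := fun p a b => by simp only [OPS, OP, J_def, e, eval_mul]
  have t : ∀ l : Filter ℝ, Tendsto (fun x => x ^ 2) l atTop →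
      Tendsto (fun x => (x ^ 2 / 4 - log (f x) / 2) / (1 / 4 * x ^ 2)) l (𝓝 1) := fun l hl => by
    have h1 : Tendsto (fun x => log (f x) * (x ^ 2)⁻¹) l (𝓝 0) := by
      refine bdd_le_mul_tendsto_zero (b := log (40 / 41)) (B := log (41 / 40))
        (Eventually.of_forall fun x => log_le_log (by norm_num) (hb x).1)
        (Eventually.of_forall fun x => log_le_log (f0 x) (hb x).2) hl.inv_tendsto_atTop
    have h2 := (h1.const_mul 2).const_sub 1
    simp only [mul_zero, sub_zero] at h2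
    refine h2.congr' ((hl.eventually_gt_atTop 0).mono fun x hx => ?_)
    have : x ≠ 0 := by rintro rfl; simp at hx
    field_simp
    ring
  refine ⟨fun x => x ^ 2 / 4 - log (f x) / 2, by fun_prop, fun k => ?_,
    t _ (tendsto_pow_atTop two_ne_zero), ?_, ?_, fun p a b h L hL ⟨l, hl⟩ => ?_⟩
  · simpa only [e, eval_pow, eval_X] using intb (X ^ k) hf hb
  · simp only [sq_abs]
    refine t _ ?_
    exact ((tendsto_pow_atTop two_ne_zero).comp (tendsto_abs_atBot_atTop (G := ℝ))).congr sq_abs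
  · simpa only [o] using exOP (J_pos hf hb)
  · refine nolim ((o p a b).1 h) hk ⟨l * 1, ?_⟩
    have h1 := hL.comp (tendsto_sqrt_atTop.comp tendsto_natCast_atTop_atTop)
    refine (hl.mul h1).congr' ((h1.eventually_ne one_ne_zero).mono fun n hn => ?_)
    simp only [Function.comp] at hn ⊢
    rw [← div_div, div_mul_cancel₀ _ hn]

end Pool.Agent.Results.MP_e8d659_an.No
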